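import Mathlib

/-!
# The double sum of the kappa lemma
-/

set_option autoImplicit false

namespace Pool.Agent.SWT82

variable {M : Type*} [AddCommGroup M] {n : ℕ}

/-- Telescoping from the left. -/
theorem tele (f : Fin (n + 1) → M) (g : Fin n → M)
    (h : ∀ p : Fin n, f p.castSucc - f p.succ = g p) (k : Fin (n + 1)) :
    f 0 - f k = ∑ p : Fin n, if p.castSucc < k then g p else 0 := by
  induction k using Fin.induction with
  | zero =>
    rw [sub_self]
    symm
    apply Finset.sum_eq_zero
    intro p _
    rw [if_neg (Fin.not_lt_zero _)]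
  | succ i ih =>
    have h1 : ∀ p : Fin n, (if p.castSucc < i.succ then g p else 0) =
        (if p.castSucc < i.castSucc then g p else 0) + if p = i then g p else 0 := by
      intro p
      rcases lt_trichotomy p i with h2 | h2 | h2
      · rw [if_pos (Fin.castSucc_lt_succ_iff.2 h2.le), if_pos (Fin.castSucc_lt_castSucc_iff.2 h2),
          if_neg h2.ne, add_zero]
      · rw [h2, if_pos (Fin.castSucc_lt_succ_iff.2 le_rfl), if_neg (lt_irrefl _), if_pos rfl,
          zero_add]
      · rw [if_neg (fun h3 => absurd (Fin.castSucc_lt_succ_iff.1 h3) (not_le.2 h2)),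
          if_neg (fun h3 => absurd (Fin.castSucc_lt_castSucc_iff.1 h3) (not_lt.2 h2.le)),
          if_neg h2.ne', add_zero]
    rw [Finset.sum_congr rfl (fun p _ => h1 p), Finset.sum_add_distrib, ← ih,
      Finset.sum_ite_eq' Finset.univ i g, if_pos (Finset.mem_univ i), ← h i]
    abel

/-- Telescoping to the right. -/
theorem tele' (f : Fin (n + 1) → M) (g : Fin n → M)
    (h : ∀ p : Fin n, f p.castSucc - f p.succ = g p) (k : Fin (n + 1)) :
    f k - f (Fin.last n) = ∑ p : Fin n, if k ≤ p.castSucc then g p else 0 := by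
  have h1 := tele f g h k
  have h2 := tele f g h (Fin.last n)
  have h3 : ∀ p : Fin n, (if p.castSucc < Fin.last n then g p else 0) =
      (if p.castSucc < k then g p else 0) + if k ≤ p.castSucc then g p else 0 := by
    intro p
    rw [if_pos (Fin.castSucc_lt_last p)]
    rcases lt_or_ge p.castSucc k with h4 | h4
    · rw [if_pos h4, if_neg (not_le.2 h4), add_zero]
    · rw [if_neg (not_lt.2 h4), if_pos h4, zero_add]
  rw [Finset.sum_congr rfl (fun p _ => h3 p), Finset.sum_add_distrib, ← h1] at h2
  have h4 : f 0 - f (Fin.last n) = (f 0 - f k) + (f k - f (Fin.last n)) := by abel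
  rw [h4] at h2
  exact add_left_cancel h2

/-- The double sum of the kappa lemma: `a j p` is the value with the hair on the leg `j` and with
the label `p`, `B j p` the value with a chord between the legs `j` and `p`. -/
theorem kap (h2 : ∀ m : M, m + m = 0 → m = 0) (a : Fin n → Fin (n + 1) → M)
    (B : Fin n → Fin n → M) (hB : ∀ j k, B j k = B k j) (hcol : ∀ p, ∑ j, B j p = 0)
    (step : ∀ j p : Fin n, a j p.castSucc - a j p.succ = B j p)
    (self : ∀ j : Fin n, a j j.succ = - a j j.castSucc) (p : Fin (n + 1)) :
    ∑ j, a j p = 0 := by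
  have hT : ∀ k : Fin (n + 1), (∑ j, a j 0) - ∑ j, a j k = 0 := by
    intro k
    rw [← Finset.sum_sub_distrib, Finset.sum_congr rfl (fun j _ => tele (a j) (B j) (step j) k),
      Finset.sum_comm]
    apply Finset.sum_eq_zero
    intro q _
    by_cases hq : q.castSucc < k
    · rw [Finset.sum_congr rfl (fun j _ => if_pos hq), hcol]
    · rw [Finset.sum_congr rfl (fun j _ => if_neg hq), Finset.sum_const_zero]
  have hs : ∀ j : Fin n, a j 0 + a j (Fin.last n) = (∑ q : Fin n, if q < j then B j q else 0) -
      ∑ q : Fin n, if j < q then B j q else 0 := by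
    intro j
    have h3 := tele (a j) (B j) (step j) j.castSucc
    have h4 := tele' (a j) (B j) (step j) j.succ
    have h5 : ∀ q : Fin n, (if q.castSucc < j.castSucc then B j q else 0) =
        if q < j then B j q else 0 := by
      intro q
      by_cases hq : q < j
      · rw [if_pos hq, if_pos (Fin.castSucc_lt_castSucc_iff.2 hq)]
      · rw [if_neg hq, if_neg (fun h => hq (Fin.castSucc_lt_castSucc_iff.1 h))]
    have h6 : ∀ q : Fin n, (if j.succ ≤ q.castSucc then B j q else 0) =
        if j < q then B j q else 0 := by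
      intro q
      by_cases hq : j < q
      · rw [if_pos hq, if_pos (Fin.succ_le_castSucc_iff.2 hq)]
      · rw [if_neg hq, if_neg (fun h => hq (Fin.succ_le_castSucc_iff.1 h))]
    rw [Finset.sum_congr rfl (fun q _ => h5 q)] at h3
    rw [Finset.sum_congr rfl (fun q _ => h6 q)] at h4
    rw [← h3, ← h4, self j]
    abel
  have hsum : (∑ j, a j 0) + ∑ j, a j (Fin.last n) = 0 := by
    rw [← Finset.sum_add_distrib, Finset.sum_congr rfl (fun j _ => hs j),
      Finset.sum_sub_distrib, sub_eq_zero, Finset.sum_comm]
    refine Finset.sum_congr rfl fun q _ => Finset.sum_congr rfl fun j _ => ?_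
    rw [hB j q]
  have hl := hT (Fin.last n)
  have h0 : ∑ j, a j 0 = 0 := by
    apply h2
    have h3 : (∑ j, a j 0) + ∑ j, a j 0 = ((∑ j, a j 0) + ∑ j, a j (Fin.last n)) +
        ((∑ j, a j 0) - ∑ j, a j (Fin.last n)) := by abel
    rw [h3, hsum, hl, add_zero]
  have hp := hT p
  rw [h0, zero_sub, neg_eq_zero] at hp
  exact hp

end Pool.Agent.SWT82
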