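import Mathlib
import Pool.Agent.SWT82.Kap
import Pool.Agent.SWT65.Stmts

/-!
# Kappa is zero: the assembly
-/

set_option autoImplicit false

namespace Pool.Agent.SWT82

open Equiv Pool.Agent.SWT49 Pool.Agent.SWT80 Pool.Agent.SWT93 Pool.Agent.SWT84 Pool.Agent.SWT65

variable {M : Type} [AddCommGroup M] {n : ℕ}

/-- The sum over the ordinary legs, from the facts on the addition of a leg. -/
theorem t_zero_of (h2 : ∀ m : M, m + m = 0 → m = 0) {c : (V : Type) → Gr V (n + 1) → Fin n → M}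
    {W : (V : Type) → Gr V (n + 1 + 3) → M} (hW : Hub c W) {V : Type} [Finite V]
    (D : Gr V (n + 3))
    (hone : ∀ (p : Fin (n + 1)) (h : V), One (n := n + 1 + 3) (add D (Fin.castAdd 3 p) h))
    (hjoin : ∀ (p : Fin (n + 1)) (h : V),
      Gr.join (n := n + 1) (add D (Fin.castAdd 3 p) h) = add D.join p h)
    (hs : ∀ (p : Fin n) (h : V),
      (pq (s p) (1 : Perm (Fin 3)) • (add D (Fin.castAdd 3 p.castSucc) h : Gr (V ⊕ Fin 4) (n + 1 + 3)))
        = add D (Fin.castAdd 3 p.succ) h)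
    (hch : ∀ j : Fin n, W _ (add D (Fin.castAdd 3 j.succ) (D.leg (Fin.castAdd 3 j))) =
      - W _ (add D (Fin.castAdd 3 j.castSucc) (D.leg (Fin.castAdd 3 j))))
    (hsym : ∀ j p : Fin n, c _ (add D.join p.castSucc (D.join.leg j)) p =
      c _ (add D.join j.castSucc (D.join.leg p)) j)
    (hcol : ∀ p : Fin n, ∑ j : Fin n, c _ (add D.join p.castSucc (D.join.leg j)) p = 0)
    (p : Fin (n + 1)) :
    ∑ j : Fin n, W _ (add D (Fin.castAdd 3 p) (D.leg (Fin.castAdd 3 j))) = 0 := by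
  refine kap h2 (fun (j : Fin n) (p : Fin (n + 1)) =>
    W _ (add D (Fin.castAdd 3 p) (D.leg (Fin.castAdd 3 j))))
    (fun j p => c _ (add D.join p.castSucc (D.join.leg j)) p) hsym hcol ?_ hch p
  intro j p
  have h1 := hW.diff _ (add D (Fin.castAdd 3 p.castSucc) (D.leg (Fin.castAdd 3 j))) p (hone _ _)
  rw [hs, hjoin] at h1
  exact h1

/-- The sum over the three special legs. -/
theorem slide_add_of {W : (V : Type) → Gr V (n + 1 + 3) → M} {V : Type} (D : Gr V (n + 3))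
    (p : Fin (n + 1))
    (hz : ∑ j : Fin n, W _ (add D (Fin.castAdd 3 p) (D.leg (Fin.castAdd 3 j))) = 0)
    (hk : ∑ k : Fin (n + 3), W _ (add D (Fin.castAdd 3 p) (D.leg k)) = 0) :
    ∑ j : Fin 3, W _ (add D (Fin.castAdd 3 p) (D.leg (Fin.natAdd n j))) = 0 := by
  rw [Fin.sum_univ_add (fun k : Fin (n + 3) => W _ (add D (Fin.castAdd 3 p) (D.leg k))), hz,
    zero_add] at hk
  exact hk

end Pool.Agent.SWT82
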