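import Mathlib
import Pool.Agent.SWT82.Kappa0
import Pool.Agent.SWT80.AddK

/-!
# Kappa is zero
-/

set_option autoImplicit false

namespace Pool.Agent.SWT82

open Equiv Pool.Agent.SWT49 Pool.Agent.SWT80 Pool.Agent.SWT93 Pool.Agent.SWT84 Pool.Agent.SWT65

variable {M : Type} [AddCommGroup M] {n : ℕ}

/-- Kappa is zero: the sum over the ordinary legs. -/
theorem t_zero (h2 : ∀ m : M, m + m = 0 → m = 0) {F0 : (V : Type) → Gr V n → M} (hF0 : Rel F0)
    {W : (V : Type) → Gr V (n + 1 + 3) → M} (hW : Hub (dif F0) W) {V : Type} [Finite V]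
    (D : Gr V (n + 3)) (hD : One D) (p : Fin (n + 1)) :
    ∑ j : Fin n, W _ (add D (Fin.castAdd 3 p) (D.leg (Fin.castAdd 3 j))) = 0 := by
  have he : ∀ i j, D.join.e (D.join.leg i) ≠ D.join.leg j := fun i j =>
    SWT67.leg_e_ne hD.conn (Nat.le_add_left 3 n) _ _
  exact kap h2 (fun (j : Fin n) (p : Fin (n + 1)) =>
    W _ (add D (Fin.castAdd 3 p) (D.leg (Fin.castAdd 3 j))))
    (fun j p => F0 _ ((add D.join p.castSucc (D.join.leg j)).mg p)) (b_symm hF0 D.join he)
    (b_sum hF0 h2 D.join he) (fun j p => a_step hW D hD _ p) (a_self hW.rel D) p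

end Pool.Agent.SWT82
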