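import Mathlib
import Pool.Agent.SWT41.AddLoc2
import Pool.Agent.SWT67.TvAdd
import Pool.Agent.SWT58.Kir
import Pool.Agent.SWT36.LocShape
import Pool.Agent.SWT82.Kappa

/-!
# The sliding lemma for a new leg, and the slide at the hub
-/

set_option autoImplicit false

namespace Pool.Agent.SWT82

open Equiv Pool.Agent.SWT49 Pool.Agent.SWT80 Pool.Agent.SWT93 Pool.Agent.SWT84 Pool.Agent.SWT65

variable {M : Type} [AddCommGroup M] {n : ℕ}

/-- The edge between a vertex and the new vertex joins two different inner vertices. -/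
theorem add_ok {V : Type} (G : Gr V n) (j : Fin (n + 1)) {u : V} (hu : G.r u ≠ u) :
    Gr.Ok (add G j u) (Sum.inl u) := by
  have e0 : (add G j u).e (Sum.inl u) = Sum.inr 0 := SWT41.add_e_l G j u
  refine ⟨?_, ?_, ?_, ?_⟩
  · intro h
    exact hu (Sum.inl.inj h)
  · rw [e0]
    intro h
    exact absurd (Sum.inr.inj h) (by decide)
  · rw [e0]
    intro h
    cases h
  · rw [e0]
    intro h
    cases h

/-- The new leg at the three half-edges of a vertex. -/
theorem add_around {F : (V : Type) → Gr V (n + 1) → M} (hF : Rel F) {V : Type} [Finite V]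
    (G : Gr V n) (j : Fin (n + 1)) {u : V} (hu : G.r u ≠ u) :
    F _ (add G j u) + F _ (add G j (G.r u)) + F _ (add G j (G.r (G.r u))) = 0 := by
  obtain ⟨J, X, h⟩ := SWT36.exists_loc (add_ok G j hu)
  have h0 : ∀ v : V, (add G j v).r (Sum.inr 0) ≠ Sum.inr 0 := by
    intro v h1
    exact absurd (Sum.inr.inj h1) (by decide)
  have h1 := hF.ihx _ _ _ _ _ h
  rw [← SWT41.loc1_J hu h, ← SWT41.loc1_X hu h, hF.iso, hF.iso, hF.as _ _ _ (h0 _), hF.as,
    hF.as _ _ _ (h0 _)] at h1
  · rw [h1]
    abel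
  · rw [Gr.flip_r, Gr.fr_neg]
    · exact fun h2 => hu (Sum.inl.inj h2)
    · rintro (h2 | h2 | h2)
      · cases h2
      · cases h2
      · cases h2

/-- Kirchhoff's law for a new leg. -/
theorem add_kirchhoff {F : (V : Type) → Gr V (n + 1) → M} (hF : Rel F) {V : Type} [Finite V]
    (G : Gr V n) (p : Fin (n + 1)) : ∑ k : Fin n, F _ (add G p (G.leg k)) = 0 := by
  classical
  have := Fintype.ofFinite V
  have s1 : ∑ h : V, F _ (add G p h) = 0 := by
    refine Finset.sum_involution (fun h _ => G.e h) ?_ ?_ ?_ ?_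
    · intro h _
      rw [SWT67.add_neg hF]
      exact add_neg_cancel _
    · intro h _ _
      exact G.e1 h
    · intro h _
      exact Finset.mem_univ _
    · intro h _
      exact G.e2 h
  have s2 : ∑ h ∈ Finset.univ.filter (fun h => G.r h ≠ h), F _ (add G p h) = 0 := by
    refine SWT58.sum_triples (G.r : V → V) (fun h => F _ (add G p h)) G.r3 _ _ rfl ?_ ?_ ?_
    · intro h hh
      rw [Finset.mem_filter] at hh ⊢
      exact ⟨Finset.mem_univ _, fun h1 => hh.2 (G.r_inj h1)⟩
    · intro h hh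
      exact (Finset.mem_filter.1 hh).2
    · intro h hh
      exact add_around hF G p (Finset.mem_filter.1 hh).2
  rw [← Finset.sum_filter_add_sum_filter_not _ (fun h => G.r h ≠ h), s2, zero_add] at s1
  rw [← s1]
  have s3 : Finset.univ.filter (fun h => ¬ G.r h ≠ h) = Finset.univ.image G.leg := by
    ext h
    rw [Finset.mem_filter, not_not, Finset.mem_image]
    constructor
    · rintro ⟨_, h3⟩
      obtain ⟨k, rfl⟩ := (G.fix h).1 h3
      exact ⟨k, Finset.mem_univ _, rfl⟩
    · rintro ⟨k, _, rfl⟩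
      exact ⟨Finset.mem_univ _, G.r_leg k⟩
  rw [s3, Finset.sum_image fun a _ b _ h => G.inj h]

/-- The slide of a new leg at the hub. -/
theorem slide_add (h2 : ∀ m : M, m + m = 0 → m = 0) {F0 : (V : Type) → Gr V n → M} (hF0 : Rel F0)
    {W : (V : Type) → Gr V (n + 1 + 3) → M} (hW : Hub (dif F0) W) {V : Type} [Finite V]
    (D : Gr V (n + 3)) (hD : One D) (p : Fin (n + 1)) :
    ∑ j : Fin 3, W _ (add D (Fin.castAdd 3 p) (D.leg (Fin.natAdd n j))) = 0 :=
  slide_add_of D p (t_zero h2 hF0 hW D hD p)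
    (add_kirchhoff (n := n + 3) hW.rel D (Fin.castAdd 3 p))

end Pool.Agent.SWT82
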