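import Mathlib
import Pool.Agent.SWT82.AddKir
import Pool.Agent.SWT41.Slide
import Pool.Agent.SWT80.HubAt

/-!
# The slide at the hub, from the existence of the graph without the hair
-/

set_option autoImplicit false

namespace Pool.Agent.SWT82

open Equiv Pool.Agent.SWT49 Pool.Agent.SWT80 Pool.Agent.SWT93 Pool.Agent.SWT84 Pool.Agent.SWT65

/-- M4, from the removal of a hair. -/
theorem s_slide_of {M : Type} [AddCommGroup M] (h2 : ∀ m : M, m + m = 0 → m = 0)
    (hx : SWT41.ExAdd) : S_slide M := by
  intro n _ _ _ F0 hF0 _ W hW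
  refine SWT41.slide_of_add hx hW.rel (hub_alt3 hW) ?_ ?_
  · intro V _ K p
    by_cases hK : One K
    · exact slide_add h2 hF0 hW K hK p
    · apply Finset.sum_eq_zero
      intro j _
      exact hW.off _ _ (fun h => hK (one_add3.1 h))
  · intro V _ K p h
    exact SWT67.add_neg (n := n + 3) hW.rel K (Fin.castAdd 3 p) h

end Pool.Agent.SWT82
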