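import Mathlib
import Pool.Agent.SWT82.Sl
import Pool.Agent.SWT69.ExAdd

/-!
# The slide of a hair at the hub (M4)
-/

set_option autoImplicit false

namespace Pool.Agent.SWT82

open Equiv Pool.Agent.SWT49 Pool.Agent.SWT80 Pool.Agent.SWT93 Pool.Agent.SWT84 Pool.Agent.SWT65

theorem exAdd : SWT41.ExAdd := by
  intro V n G j hy hne
  obtain ⟨U, K, k, f, h, _⟩ := SWT69.exists_add G j hy hne
  exact ⟨U, K, k, f, h⟩

/-- **M4**: a hair slides at the hub. -/
theorem s_slide {M : Type} [AddCommGroup M] (h2 : ∀ m : M, m + m = 0 → m = 0) : S_slide M :=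
  s_slide_of h2 exAdd

end Pool.Agent.SWT82
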